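import Mathlib

/-!
# Products of null-additive sets of reals

If `X` and `Y` are null-additive subsets of the real line then `X × Y` is null-additive in the
plane (Q2 of the problem).

Outline. (1) `key_bound`: for every level `f` and every `n` there is an open set `A f n` of density
at most `4 * 2 ^ (-n)` such that the union of the translates of `A f n` by any `2 ^ n` points with
different `f`-th dyadic parts fills at least one half of every dyadic interval of level `f`.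
(2) `slalom`: hence (Baire category and the Lebesgue density theorem) a null-additive set `X` of
reals is captured, for every sequence `f n → ∞`, by sets `G n` of at most `(n + 1) * 2 ^ n` dyadic
intervals of level `f n`: every `x ∈ X` belongs to a member of `G n` for all large `n`.
(3) A set of the plane which is captured in this way is null-additive.
-/

open MeasureTheory Set Filter Topology
open scoped ENNReal Pointwise

namespace Pool.Agent.Results.MP_52c2ea_lc.NullAdditiveProduct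

/-- The half-open dyadic interval of level `l` and index `k`. -/
def cell (l : ℕ) (k : ℤ) : Set ℝ := {y | ⌊(2 : ℝ) ^ l * y⌋ = k}

lemma cell_eq (l : ℕ) (k : ℤ) :
    cell l k = Ico ((k : ℝ) / 2 ^ l) (((k : ℝ) + 1) / 2 ^ l) := by
  ext y
  have h2 : (0 : ℝ) < 2 ^ l := by positivity
  simp only [cell, mem_ofPred_eq, Int.floor_eq_iff, mem_Ico]
  rw [div_le_iff₀ h2, lt_div_iff₀ h2, mul_comm y]

lemma measurableSet_cell (l : ℕ) (k : ℤ) : MeasurableSet (cell l k) := by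
  rw [cell_eq]; exact measurableSet_Ico

lemma volume_cell (l : ℕ) (k : ℤ) : volume (cell l k) = (2⁻¹ : ℝ≥0∞) ^ l := by
  rw [cell_eq, Real.volume_Ico]
  have h2 : (0 : ℝ) < 2 ^ l := by positivity
  have : ((k : ℝ) + 1) / 2 ^ l - (k : ℝ) / 2 ^ l = (2⁻¹ : ℝ) ^ l := by
    rw [inv_pow]; field_simp; ring
  rw [this, ENNReal.ofReal_pow (by norm_num), ENNReal.ofReal_inv_of_pos (by norm_num)]
  norm_num

lemma mem_cell_iff {l : ℕ} {k : ℤ} {y : ℝ} : y ∈ cell l k ↔ ⌊(2 : ℝ) ^ l * y⌋ = k := Iff.rfl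

/-- floors at two levels -/
lemma floor_div (l m : ℕ) (y : ℝ) : ⌊(2 : ℝ) ^ (l + m) * y⌋ / 2 ^ m = ⌊(2 : ℝ) ^ l * y⌋ := by
  have h2 : (0 : ℝ) < 2 ^ m := by positivity
  have h := Int.floor_div_natCast ((2 : ℝ) ^ (l + m) * y) (2 ^ m)
  have h3 : (2 : ℝ) ^ (l + m) * y / ((2 ^ m : ℕ) : ℝ) = 2 ^ l * y := by
    push_cast
    rw [pow_add]; field_simp
  rw [h3] at h
  rw [h]
  push_cast
  rfl

lemma cell_subset_iUnion (l m : ℕ) (k : ℤ) :
    cell l k ⊆ ⋃ r ∈ Finset.range (2 ^ m), cell (l + m) (k * 2 ^ m + r) := by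
  intro y hy
  rw [mem_cell_iff] at hy
  have h1 := floor_div l m y
  rw [hy] at h1
  have h2 := Int.emod_nonneg ⌊(2 : ℝ) ^ (l + m) * y⌋ (b := 2 ^ m) (by positivity)
  have h3 := Int.emod_lt_of_pos ⌊(2 : ℝ) ^ (l + m) * y⌋ (b := 2 ^ m) (by positivity)
  have h4 := Int.mul_ediv_add_emod ⌊(2 : ℝ) ^ (l + m) * y⌋ (2 ^ m)
  simp only [mem_iUnion, Finset.mem_range]
  refine ⟨(⌊(2 : ℝ) ^ (l + m) * y⌋ % 2 ^ m).toNat, ?_, ?_⟩
  · zify
    rw [Int.toNat_of_nonneg h2]
    exact h3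
  · rw [mem_cell_iff, Int.toNat_of_nonneg h2]
    rw [h1] at h4
    linarith

/-- A bound on all the cells of level `l + m` gives one on the cells of level `l`. -/
lemma refine_bound {S : Set ℝ} {c : ℝ≥0∞} {l m : ℕ}
    (h : ∀ k, volume (S ∩ cell (l + m) k) ≤ c * (2⁻¹ : ℝ≥0∞) ^ (l + m)) (k : ℤ) :
    volume (S ∩ cell l k) ≤ c * (2⁻¹ : ℝ≥0∞) ^ l := by
  calc volume (S ∩ cell l k)
      ≤ volume (⋃ r ∈ Finset.range (2 ^ m), (S ∩ cell (l + m) (k * 2 ^ m + (r : ℤ)))) := by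
        apply measure_mono
        rintro y ⟨hy1, hy2⟩
        have := cell_subset_iUnion l m k hy2
        simp only [mem_iUnion] at this ⊢
        obtain ⟨r, hr, h⟩ := this
        exact ⟨r, hr, hy1, h⟩
    _ ≤ ∑ r ∈ Finset.range (2 ^ m), volume (S ∩ cell (l + m) (k * 2 ^ m + (r : ℤ))) :=
        measure_biUnion_finset_le _ _
    _ ≤ ∑ r ∈ Finset.range (2 ^ m), c * (2⁻¹ : ℝ≥0∞) ^ (l + m) :=
        Finset.sum_le_sum fun r _ => h _
    _ = c * (2⁻¹ : ℝ≥0∞) ^ l := by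
        rw [Finset.sum_const, Finset.card_range, nsmul_eq_mul, pow_add]
        push_cast
        rw [show (2 : ℝ≥0∞) ^ m * (c * (2⁻¹ ^ l * 2⁻¹ ^ m)) = c * 2⁻¹ ^ l * (2 ^ m * 2⁻¹ ^ m) by ring,
          ← mul_pow, ENNReal.mul_inv_cancel (by norm_num) (by norm_num), one_pow, mul_one]

/-- The points whose `n` binary digits after position `P` are those of `d`. -/
def dig (n P : ℕ) (d : ℤ) : Set ℝ := {y | ⌊(2 : ℝ) ^ (P + n) * y⌋ % 2 ^ n = d % 2 ^ n}

lemma mem_dig_of_cell {n P : ℕ} {d : ℤ} {k : ℤ} {r : ℕ} (hr : (r : ℤ) = d % 2 ^ n) {y : ℝ}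
    (hy : y ∈ cell (P + n) (k * 2 ^ n + r)) : y ∈ dig n P d := by
  rw [mem_cell_iff] at hy
  simp only [dig, mem_ofPred_eq]
  rw [hy, hr]
  simp [Int.add_emod]

/-- One step of the independence of the digits: leaving out the value `d`. -/
lemma step_bound {S : Set ℝ} {c : ℝ≥0∞} {n P : ℕ} (d : ℤ)
    (h : ∀ k, volume (S ∩ cell (P + n) k) ≤ c * (2⁻¹ : ℝ≥0∞) ^ (P + n)) (k : ℤ) :
    volume ((S \ dig n P d) ∩ cell P k) ≤ ((1 - 2⁻¹ ^ n) * c) * (2⁻¹ : ℝ≥0∞) ^ P := by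
  have hd0 : 0 ≤ d % 2 ^ n := Int.emod_nonneg _ (by positivity)
  have hd1 : d % 2 ^ n < 2 ^ n := Int.emod_lt_of_pos _ (by positivity)
  set r0 : ℕ := (d % 2 ^ n).toNat with hr0
  have hr0' : (r0 : ℤ) = d % 2 ^ n := Int.toNat_of_nonneg hd0
  have hr0lt : r0 < 2 ^ n := by zify; rw [hr0']; exact hd1
  calc volume ((S \ dig n P d) ∩ cell P k)
      ≤ volume (⋃ r ∈ (Finset.range (2 ^ n)).erase r0, (S ∩ cell (P + n) (k * 2 ^ n + (r : ℤ)))) := by
        apply measure_mono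
        rintro y ⟨⟨hy1, hy3⟩, hy2⟩
        have := cell_subset_iUnion P n k hy2
        simp only [mem_iUnion] at this ⊢
        obtain ⟨r, hr, h⟩ := this
        refine ⟨r, ?_, hy1, h⟩
        rw [Finset.mem_erase]
        refine ⟨?_, hr⟩
        rintro rfl
        exact hy3 (mem_dig_of_cell hr0' h)
    _ ≤ ∑ r ∈ (Finset.range (2 ^ n)).erase r0, volume (S ∩ cell (P + n) (k * 2 ^ n + (r : ℤ))) :=
        measure_biUnion_finset_le _ _
    _ ≤ ∑ r ∈ (Finset.range (2 ^ n)).erase r0, c * (2⁻¹ : ℝ≥0∞) ^ (P + n) :=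
        Finset.sum_le_sum fun r _ => h _
    _ = ((1 - 2⁻¹ ^ n) * c) * (2⁻¹ : ℝ≥0∞) ^ P := by
        rw [Finset.sum_const, Finset.card_erase_of_mem (Finset.mem_range.2 hr0lt),
          Finset.card_range, nsmul_eq_mul, pow_add]
        have h1 : (((2 ^ n - 1 : ℕ) : ℝ≥0∞)) * (2⁻¹ : ℝ≥0∞) ^ n = 1 - 2⁻¹ ^ n := by
          rw [ENNReal.natCast_sub]
          push_cast
          rw [ENNReal.sub_mul (by intros; exact ENNReal.pow_ne_top (by norm_num)), one_mul,
            ← mul_pow, ENNReal.mul_inv_cancel (by norm_num) (by norm_num), one_pow]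
        rw [← h1]; ring

/-- Independence of disjoint blocks of binary digits (upper bound). -/
lemma indep_bound (f n : ℕ) (d : ℕ → ℤ) (s : Finset ℕ) :
    ∀ (l : ℕ) (k : ℤ), (∀ w ∈ s, l ≤ f + w * n) →
      volume ({y | ∀ w ∈ s, y ∉ dig n (f + w * n) (d w)} ∩ cell l k) ≤
        (1 - 2⁻¹ ^ n) ^ s.card * (2⁻¹ : ℝ≥0∞) ^ l := by
  induction s using Finset.induction_on_min with
  | empty =>
    intro l k _
    simp only [Finset.card_empty, pow_zero, one_mul]
    exact (measure_mono inter_subset_right).trans (volume_cell l k).le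
  | insert a s ha ih =>
    intro l k hl
    have hla : l ≤ f + a * n := hl a (Finset.mem_insert_self _ _)
    obtain ⟨m, hm⟩ := Nat.exists_eq_add_of_le hla
    have hnot : a ∉ s := fun h => lt_irrefl _ (ha a h)
    rw [Finset.card_insert_of_notMem hnot, pow_succ']
    refine refine_bound (m := m) (fun k => ?_) k
    rw [← hm]
    have h1 := step_bound (P := f + a * n) (n := n) (S := {y | ∀ w ∈ s, y ∉ dig n (f + w * n) (d w)})
      (d a) (fun k => ih (f + a * n + n) k (fun w hw => by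
        have := ha w hw
        calc f + a * n + n = f + (a + 1) * n := by ring
          _ ≤ f + w * n := by gcongr; omega)) k
    refine le_trans (measure_mono ?_) h1
    rintro y ⟨hy1, hy2⟩
    refine ⟨⟨fun w hw => hy1 w (Finset.mem_insert_of_mem hw), hy1 a (Finset.mem_insert_self _ _)⟩, hy2⟩

/-- The measure of the points of a coarse cell with a given block of digits. -/
lemma dig_bound (n P : ℕ) (d : ℤ) (l : ℕ) (k : ℤ) (hl : l ≤ P) :
    volume (dig n P d ∩ cell l k) ≤ (2⁻¹ : ℝ≥0∞) ^ n * (2⁻¹ : ℝ≥0∞) ^ l := by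
  obtain ⟨m, rfl⟩ := Nat.exists_eq_add_of_le hl
  refine refine_bound (m := m) (fun k => ?_) k
  have hd0 : 0 ≤ d % 2 ^ n := Int.emod_nonneg _ (by positivity)
  calc volume (dig n (l + m) d ∩ cell (l + m) k)
      ≤ volume (cell (l + m + n) (k * 2 ^ n + d % 2 ^ n)) := by
        apply measure_mono
        rintro y ⟨hy1, hy2⟩
        simp only [dig, mem_ofPred_eq] at hy1
        rw [mem_cell_iff] at hy2 ⊢
        have h1 := floor_div (l + m) n y
        have h4 := Int.mul_ediv_add_emod ⌊(2 : ℝ) ^ (l + m + n) * y⌋ (2 ^ n)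
        rw [h1, hy2, hy1] at h4
        linarith
    _ = _ := by rw [volume_cell, pow_add _ (l + m) n, mul_comm]


/-! ### The open sets `A f n` -/

/-- `2 ^ P * y` is at distance less than `2 ^ (-n)` from an integer. -/
def near (n P : ℕ) : Set ℝ := ⋃ m : ℤ, {y : ℝ | |(2 : ℝ) ^ P * y - m| < (2⁻¹ : ℝ) ^ n}

lemma isOpen_near (n P : ℕ) : IsOpen (near n P) := by
  apply isOpen_iUnion
  intro m
  exact isOpen_lt (by fun_prop) continuous_const

lemma near_subset (n P : ℕ) : near n P ⊆ dig n P 0 ∪ dig n P (-1) := by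
  intro y hy
  simp only [near, mem_iUnion, mem_ofPred_eq] at hy
  obtain ⟨m, hm⟩ := hy
  rw [abs_lt] at hm
  have h2 : (0 : ℝ) < 2 ^ n := by positivity
  have e1 : (2 : ℝ) ^ (P + n) * y = 2 ^ n * ((2 : ℝ) ^ P * y) := by rw [pow_add]; ring
  have e2 : (2 : ℝ) ^ n * (2⁻¹ : ℝ) ^ n = 1 := by
    rw [← mul_pow]; norm_num
  have h3 : (2 : ℝ) ^ n * m - 1 < 2 ^ (P + n) * y := by
    rw [e1]
    have := mul_lt_mul_of_pos_left hm.1 h2
    nlinarith
  have h4 : (2 : ℝ) ^ (P + n) * y < 2 ^ n * m + 1 := by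
    rw [e1]
    have := mul_lt_mul_of_pos_left hm.2 h2
    nlinarith
  rcases le_or_gt ((2 : ℝ) ^ n * m) (2 ^ (P + n) * y) with h | h
  · left
    have : ⌊(2 : ℝ) ^ (P + n) * y⌋ = 2 ^ n * m := by
      rw [Int.floor_eq_iff]; push_cast; exact ⟨h, h4⟩
    simp [dig, this]
  · right
    have : ⌊(2 : ℝ) ^ (P + n) * y⌋ = 2 ^ n * m + (-1) := by
      rw [Int.floor_eq_iff]; push_cast; exact ⟨by linarith, by linarith⟩
    simp only [dig, mem_ofPred_eq, this]
    rw [Int.add_emod]; simp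

/-- Two points with the same digits have their difference in `near`. -/
lemma near_of_dig {n P : ℕ} {y c : ℝ} (h : y ∈ dig n P ⌊(2 : ℝ) ^ (P + n) * c⌋) :
    y - c ∈ near n P := by
  simp only [dig, mem_ofPred_eq] at h
  have h2 : (0 : ℝ) < 2 ^ n := by positivity
  obtain ⟨m, hm⟩ := (Int.ModEq.dvd (show Int.ModEq (2 ^ n) _ _ from h) :
    (2 : ℤ) ^ n ∣ ⌊(2 : ℝ) ^ (P + n) * c⌋ - ⌊(2 : ℝ) ^ (P + n) * y⌋)
  simp only [near, mem_iUnion, mem_ofPred_eq]
  refine ⟨-m, ?_⟩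
  have e1 : (2 : ℝ) ^ (P + n) * y = 2 ^ n * ((2 : ℝ) ^ P * y) := by rw [pow_add]; ring
  have e3 : (2 : ℝ) ^ (P + n) * c = 2 ^ n * ((2 : ℝ) ^ P * c) := by rw [pow_add]; ring
  have e2 : (2 : ℝ) ^ n * (2⁻¹ : ℝ) ^ n = 1 := by
    rw [← mul_pow]; norm_num
  have f1 := Int.floor_le ((2 : ℝ) ^ (P + n) * y)
  have f2 := Int.lt_floor_add_one ((2 : ℝ) ^ (P + n) * y)
  have f3 := Int.floor_le ((2 : ℝ) ^ (P + n) * c)
  have f4 := Int.lt_floor_add_one ((2 : ℝ) ^ (P + n) * c)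
  have hm' : ((⌊(2 : ℝ) ^ (P + n) * c⌋ : ℤ) : ℝ) - ⌊(2 : ℝ) ^ (P + n) * y⌋ = 2 ^ n * m := by
    exact_mod_cast hm
  rw [← mul_lt_mul_iff_right₀ h2, e2, show ∀ t : ℝ, (2 : ℝ) ^ n * |t| = |2 ^ n * t| from
    fun t => by rw [abs_mul, abs_of_pos h2], abs_lt]
  push_cast
  constructor
  · have : (2 : ℝ) ^ n * (2 ^ P * (y - c) - -m) = 2 ^ n * (2 ^ P * y) - 2 ^ n * (2 ^ P * c) + 2 ^ n * m := by ring
    rw [this, ← e1, ← e3]; linarith
  · have : (2 : ℝ) ^ n * (2 ^ P * (y - c) - -m) = 2 ^ n * (2 ^ P * y) - 2 ^ n * (2 ^ P * c) + 2 ^ n * m := by ring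
    rw [this, ← e1, ← e3]; linarith

/-- enumeration of the integers -/
def e : ℤ ≃ ℕ := Equiv.intEquivNat

/-- The `n`-th open set, at level `f`. A point in the interior of the dyadic interval of level `f`
and index `k` belongs to it if its block of `n` digits number `e k` or `e (k + 1)` after the level
`f` is close to zero. -/
def A (f n : ℕ) : Set ℝ :=
  ⋃ k : ℤ, {y : ℝ | (k : ℝ) < 2 ^ f * y ∧ 2 ^ f * y < k + 1} ∩
    (near n (f + e k * n) ∪ near n (f + e (k + 1) * n))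

lemma isOpen_A (f n : ℕ) : IsOpen (A f n) := by
  apply isOpen_iUnion
  intro k
  apply IsOpen.inter
  · have hc : Continuous (fun y : ℝ => (2 : ℝ) ^ f * y) := by fun_prop
    exact (isOpen_lt continuous_const hc).inter (isOpen_lt hc continuous_const)
  · exact (isOpen_near _ _).union (isOpen_near _ _)

lemma volume_A_cell (f n : ℕ) (k : ℤ) :
    volume (A f n ∩ cell f k) ≤ 4 * (2⁻¹ : ℝ≥0∞) ^ n * (2⁻¹ : ℝ≥0∞) ^ f := by
  have hsub : A f n ∩ cell f k ⊆ (dig n (f + e k * n) 0 ∩ cell f k ∪ dig n (f + e k * n) (-1) ∩ cell f k)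
      ∪ (dig n (f + e (k + 1) * n) 0 ∩ cell f k ∪ dig n (f + e (k + 1) * n) (-1) ∩ cell f k) := by
    rintro y ⟨hy1, hy2⟩
    simp only [A, mem_iUnion] at hy1
    obtain ⟨k', ⟨h1, h2⟩, h3⟩ := hy1
    have hk : k' = k := by
      rw [mem_cell_iff] at hy2
      rw [← hy2, eq_comm, Int.floor_eq_iff]
      exact ⟨h1.le, h2⟩
    subst hk
    rcases h3 with h3 | h3
    · left
      rcases near_subset _ _ h3 with h | h
      · exact Or.inl ⟨h, hy2⟩
      · exact Or.inr ⟨h, hy2⟩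
    · right
      rcases near_subset _ _ h3 with h | h
      · exact Or.inl ⟨h, hy2⟩
      · exact Or.inr ⟨h, hy2⟩
  refine (measure_mono hsub).trans ?_
  refine (measure_union_le _ _).trans ?_
  refine (add_le_add (measure_union_le _ _) (measure_union_le _ _)).trans ?_
  have h1 := fun P d (h : f ≤ P) => dig_bound n P d f k h
  refine (add_le_add (add_le_add (h1 _ _ (Nat.le_add_right _ _)) (h1 _ _ (Nat.le_add_right _ _)))
    (add_le_add (h1 _ _ (Nat.le_add_right _ _)) (h1 _ _ (Nat.le_add_right _ _)))).trans ?_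
  apply le_of_eq
  ring

/-- The key estimate: translates of `A f n` by points in different cells of level `f` cover most
of every cell of level `f`. -/
lemma key_bound (f n : ℕ) (s : Finset ℤ) (rep : ℤ → ℝ)
    (hrep : ∀ a ∈ s, ⌊(2 : ℝ) ^ f * rep a⌋ = a) (k : ℤ) :
    volume ({y | ∀ a ∈ s, y - rep a ∉ A f n} ∩ cell f k) ≤
      (1 - 2⁻¹ ^ n) ^ s.card * (2⁻¹ : ℝ≥0∞) ^ f := by
  classical
  let W : Finset ℕ := s.image (fun a => e (k - a))
  let d : ℕ → ℤ := fun w => ⌊(2 : ℝ) ^ (f + w * n + n) * rep (k - e.symm w)⌋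
  have hW : W.card = s.card := Finset.card_image_of_injective _ (fun a b h => by
    have := e.injective h
    omega)
  have hcount : ({y | ∃ a ∈ s, ∃ j : ℤ, (2 : ℝ) ^ f * (y - rep a) = j} : Set ℝ).Countable := by
    have : {y | ∃ a ∈ s, ∃ j : ℤ, (2 : ℝ) ^ f * (y - rep a) = j} ⊆
        ⋃ a ∈ s, range (fun j : ℤ => rep a + (j : ℝ) / 2 ^ f) := by
      rintro y ⟨a, ha, j, hj⟩
      simp only [mem_iUnion, mem_range]
      refine ⟨a, ha, j, ?_⟩
      rw [← hj]; field_simp; ring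
    refine Set.Countable.mono this ?_
    exact Set.Countable.biUnion (Finset.countable_toSet s) (fun a _ => countable_range _)
  have hnull := hcount.measure_zero (volume : Measure ℝ)
  have hsub : {y | ∀ a ∈ s, y - rep a ∉ A f n} ∩ cell f k ⊆
      {y | ∃ a ∈ s, ∃ j : ℤ, (2 : ℝ) ^ f * (y - rep a) = j} ∪
        ({y | ∀ w ∈ W, y ∉ dig n (f + w * n) (d w)} ∩ cell f k) := by
    rintro y ⟨hy1, hy2⟩
    by_cases hc : y ∈ {y | ∃ a ∈ s, ∃ j : ℤ, (2 : ℝ) ^ f * (y - rep a) = j}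
    · exact Or.inl hc
    refine Or.inr ⟨?_, hy2⟩
    intro w hw hdig
    simp only [W, Finset.mem_image] at hw
    obtain ⟨a, ha, rfl⟩ := hw
    simp only [d, Equiv.symm_apply_apply] at hdig
    have hka : k - (k - a) = a := by ring
    rw [hka] at hdig
    have hnear := near_of_dig hdig
    apply hy1 a ha
    -- locate `y - rep a`
    set z := y - rep a with hz
    have hne : ∀ j : ℤ, (2 : ℝ) ^ f * z ≠ j := by
      intro j hj
      exact hc ⟨a, ha, j, hj⟩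
    rw [mem_cell_iff, Int.floor_eq_iff] at hy2
    have hr := hrep a ha
    rw [Int.floor_eq_iff] at hr
    have hz1 : (2 : ℝ) ^ f * z = 2 ^ f * y - 2 ^ f * rep a := by rw [hz]; ring
    have hl1 : ((k - a : ℤ) : ℝ) - 1 < 2 ^ f * z := by rw [hz1]; push_cast; linarith
    have hl2 : (2 : ℝ) ^ f * z < ((k - a : ℤ) : ℝ) + 1 := by rw [hz1]; push_cast; linarith
    simp only [A, mem_iUnion]
    rcases lt_or_gt_of_ne (hne (k - a)) with h | h
    · refine ⟨k - a - 1, ⟨?_, ?_⟩, Or.inr ?_⟩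
      · push_cast at hl1 ⊢; linarith
      · push_cast at h ⊢; linarith
      · rw [show k - a - 1 + 1 = k - a by ring]; exact hnear
    · exact ⟨k - a, ⟨h, hl2⟩, Or.inl hnear⟩
  refine (measure_mono hsub).trans ?_
  refine (measure_union_le _ _).trans ?_
  rw [hnull, zero_add, ← hW]
  exact indep_bound f n d W f k (fun w _ => Nat.le_add_right _ _)

lemma pow_le_half (n : ℕ) : (1 - (2⁻¹ : ℝ≥0∞) ^ n) ^ (2 ^ n) ≤ 2⁻¹ := by
  have h1 : (1 - (2⁻¹ : ℝ≥0∞) ^ n) = ENNReal.ofReal (1 - 1 / ((2 ^ n : ℕ) : ℝ)) := by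
    rw [ENNReal.ofReal_sub _ (by positivity), ENNReal.ofReal_one, one_div,
      ENNReal.ofReal_inv_of_pos (by positivity), ENNReal.ofReal_natCast]
    push_cast
    rw [ENNReal.inv_pow]
  have h0 : (0 : ℝ) ≤ 1 - 1 / ((2 ^ n : ℕ) : ℝ) := by
    rw [sub_nonneg, div_le_one (by positivity)]
    exact_mod_cast Nat.one_le_two_pow
  rw [h1, ← ENNReal.ofReal_pow h0]
  have h2 : (1 - 1 / ((2 ^ n : ℕ) : ℝ)) ^ (2 ^ n) ≤ Real.exp (-1) := by
    apply Real.one_sub_div_pow_le_exp_neg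
    exact_mod_cast Nat.one_le_two_pow
  have h3 : Real.exp (-1) ≤ 1 / 2 := by
    rw [Real.exp_neg, ← one_div]
    apply one_div_le_one_div_of_le (by norm_num)
    have := Real.exp_one_gt_d9
    linarith
  refine (ENNReal.ofReal_le_ofReal (h2.trans h3)).trans ?_
  rw [ENNReal.ofReal_div_of_pos (by norm_num)]
  simp


/-! ### Null-additive sets are captured by small sets of cells -/

/-- `A` is null-additive: `A + N` is (Lebesgue) null for every null `N`. -/
def NullAdditive {G : Type*} [Add G] [MeasureSpace G] (A : Set G) : Prop :=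
  ∀ N : Set G, volume N = 0 → volume (A + N) = 0

/-- The null set used in the proof. -/
def Nset (f : ℕ → ℕ) : Set ℝ := limsup (fun n => A (f n) n) atTop

lemma mem_Nset {f : ℕ → ℕ} {y : ℝ} : y ∈ Nset f ↔ ∀ m, ∃ n ≥ m, y ∈ A (f n) n := by
  simp only [Nset, mem_limsup_iff_frequently_mem, frequently_atTop]

lemma volume_Nset (f : ℕ → ℕ) : volume (Nset f) = 0 := by
  have h1 : ∀ j : ℤ, volume (Nset f ∩ cell 0 j) = 0 := by
    intro j
    have h2 : volume (limsup (fun n => A (f n) n ∩ cell 0 j) atTop) = 0 := by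
      apply measure_limsup_atTop_eq_zero
      refine ne_top_of_le_ne_top ?_ (ENNReal.tsum_le_tsum (g := fun n => 4 * (2⁻¹ : ℝ≥0∞) ^ n) ?_)
      · rw [ENNReal.tsum_mul_left, ENNReal.tsum_geometric]
        apply ENNReal.mul_ne_top (by norm_num)
        rw [ENNReal.inv_ne_top, ENNReal.one_sub_inv_two]
        norm_num
      · intro n
        have := refine_bound (S := A (f n) n) (c := 4 * (2⁻¹ : ℝ≥0∞) ^ n) (l := 0) (m := f n)
          (fun k => by rw [zero_add]; exact volume_A_cell (f n) n k) j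
        simpa using this
    refine measure_mono_null ?_ h2
    rintro y ⟨hy1, hy2⟩
    rw [mem_Nset] at hy1
    rw [mem_limsup_iff_frequently_mem, frequently_atTop]
    intro m
    obtain ⟨n, hn, h⟩ := hy1 m
    exact ⟨n, hn, h, hy2⟩
  have h3 : Nset f ⊆ ⋃ j : ℤ, Nset f ∩ cell 0 j := by
    intro y hy
    rw [mem_iUnion]
    exact ⟨⌊(2 : ℝ) ^ 0 * y⌋, hy, rfl⟩
  exact measure_mono_null h3 (measure_iUnion_null h1)

/-- Density: a set of positive measure fills more than half of some cell of level `f n`, for all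
large `n`. -/
lemma exists_dense_cell {S : Set ℝ} (hS : volume S ≠ 0) {f : ℕ → ℕ} (hf : Tendsto f atTop atTop) :
    ∀ᶠ n in atTop, ∃ k : ℤ, 2⁻¹ * (2⁻¹ : ℝ≥0∞) ^ (f n) < volume (S ∩ cell (f n) k) := by
  have h1 := IsUnifLocDoublingMeasure.ae_tendsto_measure_inter_div (volume : Measure ℝ) S 1
  have h2 : ∃ y, ∀ {ι : Type} {l : Filter ι} (w : ι → ℝ) (δ : ι → ℝ),
      Tendsto δ l (𝓝[>] 0) →
        (∀ᶠ (j : ι) in l, y ∈ Metric.closedBall (w j) (1 * δ j)) →
          Tendsto (fun j => volume (S ∩ Metric.closedBall (w j) (δ j)) / volume (Metric.closedBall (w j) (δ j))) l (𝓝 1) := by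
    have hne : (ae (volume.restrict S)).NeBot := by
      rw [ae_neBot]
      intro h
      rw [Measure.restrict_eq_zero] at h
      exact hS h
    exact h1.exists
  obtain ⟨y, hy⟩ := h2
  let k : ℕ → ℤ := fun n => ⌊(2 : ℝ) ^ (f n) * y⌋
  let δ : ℕ → ℝ := fun n => (2⁻¹ : ℝ) ^ (f n) / 2
  let w : ℕ → ℝ := fun n => (k n : ℝ) / 2 ^ (f n) + δ n
  have hball : ∀ n, Metric.closedBall (w n) (δ n) =
      Icc ((k n : ℝ) / 2 ^ (f n)) (((k n : ℝ) + 1) / 2 ^ (f n)) := by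
    intro n
    rw [Real.closedBall_eq_Icc]
    congr 1
    · simp [w]
    · simp only [w, δ]
      rw [inv_pow]; ring
  have hsub : ∀ n, cell (f n) (k n) ⊆ Metric.closedBall (w n) (δ n) := by
    intro n
    rw [hball, cell_eq]
    exact Ico_subset_Icc_self
  have hvol : ∀ n, volume (Metric.closedBall (w n) (δ n)) = (2⁻¹ : ℝ≥0∞) ^ (f n) := by
    intro n
    rw [hball, Real.volume_Icc, ← Real.volume_Ico, ← cell_eq, volume_cell]
  have hδ : Tendsto δ atTop (𝓝[>] 0) := by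
    rw [tendsto_nhdsWithin_iff]
    constructor
    · have h3 : Tendsto (fun n : ℕ => (2⁻¹ : ℝ) ^ n) atTop (𝓝 0) :=
        tendsto_pow_atTop_nhds_zero_of_lt_one (by norm_num) (by norm_num)
      have h4 := (h3.comp hf).div_const 2
      rw [zero_div] at h4
      exact h4
    · filter_upwards with n
      simp only [δ, mem_Ioi]
      positivity
  have hlim := hy w δ hδ (Eventually.of_forall fun n => by
    rw [one_mul]; exact hsub n rfl)
  have hev : ∀ᶠ n in atTop, (2⁻¹ : ℝ≥0∞) <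
      volume (S ∩ Metric.closedBall (w n) (δ n)) / volume (Metric.closedBall (w n) (δ n)) :=
    hlim.eventually_const_lt (by norm_num)
  filter_upwards [hev] with n hn
  refine ⟨k n, ?_⟩
  have hle : volume (S ∩ Metric.closedBall (w n) (δ n)) ≤ volume (S ∩ cell (f n) (k n)) := by
    have hs : S ∩ Metric.closedBall (w n) (δ n) ⊆ (S ∩ cell (f n) (k n)) ∪ {((k n : ℝ) + 1) / 2 ^ (f n)} := by
      rintro z ⟨hz1, hz2⟩
      rw [hball] at hz2
      rcases eq_or_lt_of_le hz2.2 with h | h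
      · right; exact h
      · left
        refine ⟨hz1, ?_⟩
        rw [cell_eq]
        exact ⟨hz2.1, h⟩
    refine (measure_mono hs).trans ((measure_union_le _ _).trans ?_)
    simp
  rw [hvol] at hn
  have hpos : (2⁻¹ : ℝ≥0∞) ^ (f n) ≠ 0 := pow_ne_zero _ (by norm_num)
  have htop : (2⁻¹ : ℝ≥0∞) ^ (f n) ≠ ∞ := ENNReal.pow_ne_top (by norm_num)
  rw [ENNReal.lt_div_iff_mul_lt (Or.inl hpos) (Or.inl htop)] at hn
  exact hn.trans_le hle

/-- The set of the points of `X` whose translates of the `A (f n) n`, `n ≥ m`, avoid `S`. -/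
def piece (f : ℕ → ℕ) (X S : Set ℝ) (m : ℕ) : Set ℝ :=
  {x | x ∈ X ∧ ∀ y ∈ S, ∀ n ≥ m, y - x ∉ A (f n) n}

lemma piece_small {f : ℕ → ℕ} (hf : Tendsto f atTop atTop) {X S : Set ℝ} {m : ℕ}
    (hS : volume S ≠ 0) : ∀ᶠ n in atTop,
      ((fun x => ⌊(2 : ℝ) ^ (f n) * x⌋) '' (piece f X S m)).Finite ∧
      ((fun x => ⌊(2 : ℝ) ^ (f n) * x⌋) '' (piece f X S m)).ncard ≤ 2 ^ n := by
  filter_upwards [exists_dense_cell hS hf, eventually_ge_atTop m] with n hn hm
  obtain ⟨k, hk⟩ := hn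
  set T : Set ℤ := (fun x => ⌊(2 : ℝ) ^ (f n) * x⌋) '' (piece f X S m) with hT
  have key : ∀ s : Finset ℤ, (s : Set ℤ) ⊆ T → s.card ≠ 2 ^ n := by
    intro s hs hcard
    have hch : ∀ a : ℤ, ∃ x : ℝ, a ∈ s → x ∈ piece f X S m ∧ ⌊(2 : ℝ) ^ (f n) * x⌋ = a := by
      intro a
      by_cases ha : a ∈ s
      · obtain ⟨x, hx, hxa⟩ := hs ha
        exact ⟨x, fun _ => ⟨hx, hxa⟩⟩
      · exact ⟨0, fun h => absurd h ha⟩
    choose rep hrep using hch
    have h1 := key_bound (f n) n s rep (fun a ha => (hrep a ha).2) k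
    rw [hcard] at h1
    have h2 : S ∩ cell (f n) k ⊆ {y | ∀ a ∈ s, y - rep a ∉ A (f n) n} ∩ cell (f n) k := by
      rintro y ⟨hy1, hy2⟩
      exact ⟨fun a ha => (hrep a ha).1.2 y hy1 n hm, hy2⟩
    have h3 := (measure_mono h2).trans (h1.trans (mul_le_mul_left (pow_le_half n) _))
    exact absurd hk (not_lt.2 h3)
  have hcardlt : ∀ s : Finset ℤ, (s : Set ℤ) ⊆ T → s.card < 2 ^ n := by
    intro s hs
    by_contra hlt
    rw [not_lt] at hlt
    obtain ⟨t, ht1, ht2⟩ := Finset.exists_subset_card_eq hlt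
    exact key t ((Finset.coe_subset.2 ht1).trans hs) ht2
  have hfin : T.Finite := by
    by_contra hinf
    obtain ⟨t, ht1, ht2⟩ := Set.Infinite.exists_subset_card_eq (Set.not_finite.1 hinf |> fun h => h) (2 ^ n)
    exact key t ht1 ht2
  refine ⟨hfin, ?_⟩
  have := hcardlt hfin.toFinset (by simp)
  rw [← Set.ncard_eq_toFinset_card T hfin] at this
  exact this.le


/-- A compact set of positive measure which avoids `Z`, all of whose nonempty relatively open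
subsets have positive measure. -/
lemma exists_compact {Z : Set ℝ} (hZ : volume Z = 0) :
    ∃ K : Set ℝ, IsCompact K ∧ K.Nonempty ∧ K ⊆ Zᶜ ∧
      ∀ U : Set ℝ, IsOpen U → (K ∩ U).Nonempty → volume (K ∩ U) ≠ 0 := by
  set Z' := toMeasurable volume Z with hZ'
  have hZ0 : volume Z' = 0 := by rw [hZ', measure_toMeasurable, hZ]
  have hZm : MeasurableSet Z' := measurableSet_toMeasurable _ _
  have hpos : (0 : ℝ≥0∞) < volume Z'ᶜ := by
    rw [pos_iff_ne_zero]
    intro h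
    have h1 : volume (univ : Set ℝ) ≤ volume Z' + volume Z'ᶜ := by
      rw [← union_compl_self Z']; exact measure_union_le _ _
    rw [hZ0, h] at h1
    simp at h1
  obtain ⟨K, hKZ, hK, hK0⟩ := hZm.compl.exists_lt_isCompact hpos
  let B := TopologicalSpace.countableBasis ℝ
  have hB : TopologicalSpace.IsTopologicalBasis B := TopologicalSpace.isBasis_countableBasis ℝ
  have hBc : B.Countable := TopologicalSpace.countable_countableBasis ℝ
  let O : Set ℝ := ⋃ U ∈ {U ∈ B | volume (K ∩ U) = 0}, U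
  have hO : IsOpen O := isOpen_biUnion fun U hU => hB.isOpen hU.1
  have hKO : volume (K ∩ O) = 0 := by
    have : K ∩ O ⊆ ⋃ U ∈ {U ∈ B | volume (K ∩ U) = 0}, (K ∩ U) := by
      rintro y ⟨hy, hyO⟩
      simp only [O, mem_iUnion] at hyO ⊢
      obtain ⟨U, hU, hyU⟩ := hyO
      exact ⟨U, hU, hy, hyU⟩
    refine measure_mono_null this ?_
    rw [measure_biUnion_null_iff (hBc.mono (fun U hU => hU.1))]
    intro U hU
    exact hU.2
  refine ⟨K \ O, hK.diff hO, ?_, ?_, ?_⟩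
  · by_contra hne
    rw [not_nonempty_iff_eq_empty] at hne
    have : K ⊆ K ∩ O := by
      intro y hy
      refine ⟨hy, ?_⟩
      by_contra hyO
      have : y ∈ (∅ : Set ℝ) := hne ▸ ⟨hy, hyO⟩
      exact this
    exact hK0.ne' (measure_mono_null this hKO)
  · intro y hy
    exact fun hyZ => hKZ hy.1 (subset_toMeasurable _ _ hyZ)
  · rintro U hU ⟨y, ⟨hyK, hyO⟩, hyU⟩ hz
    obtain ⟨V, hV, hyV, hVU⟩ := hB.exists_subset_of_mem_open hyU hU
    apply hyO
    simp only [O, mem_iUnion]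
    refine ⟨V, ⟨hV, ?_⟩, hyV⟩
    have : K ∩ V ⊆ ((K \ O) ∩ U) ∪ (K ∩ O) := by
      rintro z ⟨hz1, hz2⟩
      by_cases hzO : z ∈ O
      · exact Or.inr ⟨hz1, hzO⟩
      · exact Or.inl ⟨⟨hz1, hzO⟩, hVU hz2⟩
    refine measure_mono_null this ?_
    exact measure_union_null hz hKO

/-- A null-additive set of reals is captured, at any sequence of levels going to infinity, by sets
of at most `(n + 1) * 2 ^ n` cells. -/
theorem slalom {X : Set ℝ} (hX : NullAdditive X) {f : ℕ → ℕ} (hf : Tendsto f atTop atTop) :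
    ∃ G : ℕ → Finset ℤ, (∀ n, (G n).card ≤ (n + 1) * 2 ^ n) ∧
      ∀ x ∈ X, ∀ᶠ n in atTop, ⌊(2 : ℝ) ^ (f n) * x⌋ ∈ G n := by
  classical
  obtain ⟨K, hK, hKne, hKZ, hKU⟩ := exists_compact (hX (Nset f) (volume_Nset f))
  let B := TopologicalSpace.countableBasis ℝ
  have hB : TopologicalSpace.IsTopologicalBasis B := TopologicalSpace.isBasis_countableBasis ℝ
  have hBc : B.Countable := TopologicalSpace.countable_countableBasis ℝ
  have : Countable B := hBc.to_subtype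
  -- every point of `X` belongs to one of countably many pieces
  have hpiece : ∀ x ∈ X, ∃ (V : B) (m : ℕ), volume (K ∩ V) ≠ 0 ∧ x ∈ piece f X (K ∩ V) m := by
    intro x hx
    have : CompactSpace K := isCompact_iff_compactSpace.1 hK
    have : Nonempty K := hKne.to_subtype
    let C : ℕ → Set K := fun m => {y | ∀ n ≥ m, (y : ℝ) - x ∉ A (f n) n}
    have hC : ∀ m, IsClosed (C m) := by
      intro m
      have : C m = ⋂ n, ⋂ (_ : n ≥ m), (fun y : K => (y : ℝ) - x) ⁻¹' (A (f n) n)ᶜ := by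
        ext y; simp [C]
      rw [this]
      refine isClosed_iInter fun n => isClosed_iInter fun _ => ?_
      exact (isOpen_A _ _).isClosed_compl.preimage (by fun_prop)
    have hCu : ⋃ m, C m = univ := by
      rw [eq_univ_iff_forall]
      intro y
      have hy : (y : ℝ) - x ∉ Nset f := by
        intro h
        apply hKZ y.2
        refine ⟨x, hx, _, h, ?_⟩
        simp
      rw [mem_Nset] at hy
      push Not at hy
      obtain ⟨m, hm⟩ := hy
      rw [mem_iUnion]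
      exact ⟨m, fun n hn => hm n hn⟩
    obtain ⟨m, hm⟩ := nonempty_interior_of_iUnion_of_closed hC hCu
    obtain ⟨y, hy⟩ := hm
    obtain ⟨U, hU, hUe⟩ := isOpen_induced_iff.1 (isOpen_interior (s := C m))
    have hyU : (y : ℝ) ∈ U := by
      have : y ∈ (Subtype.val ⁻¹' U : Set K) := by rw [hUe]; exact hy
      exact this
    obtain ⟨V, hV, hyV, hVU⟩ := hB.exists_subset_of_mem_open hyU hU
    refine ⟨⟨V, hV⟩, m, hKU V (hB.isOpen hV) ⟨y, y.2, hyV⟩, hx, ?_⟩
    rintro z ⟨hz1, hz2⟩ n hn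
    have : (⟨z, hz1⟩ : K) ∈ interior (C m) := by
      rw [← hUe]; exact hVU hz2
    exact interior_subset this n hn
  -- thresholds
  have hthr : ∀ i : B × ℕ, ∃ n0 : ℕ, volume (K ∩ i.1) ≠ 0 → ∀ n ≥ n0,
      ((fun x => ⌊(2 : ℝ) ^ (f n) * x⌋) '' (piece f X (K ∩ i.1) i.2)).Finite ∧
      ((fun x => ⌊(2 : ℝ) ^ (f n) * x⌋) '' (piece f X (K ∩ i.1) i.2)).ncard ≤ 2 ^ n := by
    intro i
    by_cases h : volume (K ∩ i.1) ≠ 0
    · obtain ⟨n0, hn0⟩ := eventually_atTop.1 (piece_small hf (X := X) (m := i.2) h)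
      exact ⟨n0, fun _ n hn => hn0 n hn⟩
    · exact ⟨0, fun h' => absurd h' h⟩
  choose n0 hn0 using hthr
  obtain ⟨g, hg⟩ := Countable.exists_injective_nat (B × ℕ)
  let T : ℕ → ℕ → Set ℤ := fun k n => {a | ∃ i : B × ℕ, g i = k ∧ n0 i ≤ n ∧ volume (K ∩ i.1) ≠ 0 ∧
    a ∈ (fun x => ⌊(2 : ℝ) ^ (f n) * x⌋) '' (piece f X (K ∩ i.1) i.2)}
  have hT : ∀ k n, (T k n).Finite ∧ (T k n).ncard ≤ 2 ^ n := by
    intro k n
    by_cases h : ∃ i : B × ℕ, g i = k ∧ n0 i ≤ n ∧ volume (K ∩ i.1) ≠ 0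
    · obtain ⟨i, hi1, hi2, hi3⟩ := h
      have hTe : T k n = (fun x => ⌊(2 : ℝ) ^ (f n) * x⌋) '' (piece f X (K ∩ i.1) i.2) := by
        ext a
        constructor
        · rintro ⟨j, hj1, _, _, hj4⟩
          have : j = i := hg (hj1.trans hi1.symm)
          rw [this] at hj4
          exact hj4
        · intro ha
          exact ⟨i, hi1, hi2, hi3, ha⟩
      rw [hTe]
      exact hn0 i hi3 n hi2
    · have hTe : T k n = ∅ := by
        rw [eq_empty_iff_forall_notMem]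
        rintro a ⟨j, hj1, hj2, hj3, _⟩
        exact h ⟨j, hj1, hj2, hj3⟩
      rw [hTe]
      simp
  refine ⟨fun n => (Finset.range (n + 1)).biUnion fun k => (hT k n).1.toFinset, fun n => ?_, ?_⟩
  · have := Finset.card_biUnion_le_card_mul (Finset.range (n + 1)) (fun k => (hT k n).1.toFinset)
      (2 ^ n) (fun k _ => by
        rw [← Set.ncard_eq_toFinset_card (T k n) (hT k n).1]
        exact (hT k n).2)
    simpa using this
  · intro x hx
    obtain ⟨V, m, hV, hxp⟩ := hpiece x hx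
    filter_upwards [eventually_ge_atTop (g (V, m)), eventually_ge_atTop (n0 (V, m))] with n h1 h2
    rw [Finset.mem_biUnion]
    refine ⟨g (V, m), Finset.mem_range.2 (Nat.lt_succ_of_le h1), ?_⟩
    rw [Set.Finite.mem_toFinset]
    exact ⟨(V, m), rfl, h2, hV, x, hxp, rfl⟩


/-! ### Null sets of the plane -/

/-- The dyadic square of level `l` containing `p`. -/
def sq (l : ℕ) (p : ℝ × ℝ) : Set (ℝ × ℝ) :=
  cell l ⌊(2 : ℝ) ^ l * p.1⌋ ×ˢ cell l ⌊(2 : ℝ) ^ l * p.2⌋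

lemma mem_sq {l : ℕ} {p q : ℝ × ℝ} : q ∈ sq l p ↔
    ⌊(2 : ℝ) ^ l * q.1⌋ = ⌊(2 : ℝ) ^ l * p.1⌋ ∧ ⌊(2 : ℝ) ^ l * q.2⌋ = ⌊(2 : ℝ) ^ l * p.2⌋ := Iff.rfl

lemma mem_sq_self (l : ℕ) (p : ℝ × ℝ) : p ∈ sq l p := ⟨rfl, rfl⟩

lemma sq_eq {l : ℕ} {p q : ℝ × ℝ} (h : q ∈ sq l p) : sq l q = sq l p := by
  rw [mem_sq] at h
  rw [sq, sq, h.1, h.2]

lemma volume_sq (l : ℕ) (p : ℝ × ℝ) : volume (sq l p) = (4⁻¹ : ℝ≥0∞) ^ l := by
  rw [sq, Measure.volume_eq_prod, Measure.prod_prod, volume_cell, volume_cell, ← mul_pow,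
    ← ENNReal.mul_inv (by norm_num) (by norm_num)]
  norm_num

lemma sq_anti {l l' : ℕ} (h : l ≤ l') (p : ℝ × ℝ) : sq l' p ⊆ sq l p := by
  obtain ⟨m, rfl⟩ := Nat.exists_eq_add_of_le h
  intro q hq
  rw [mem_sq] at hq ⊢
  rw [← floor_div l m q.1, ← floor_div l m q.2, hq.1, hq.2, floor_div, floor_div]
  exact ⟨rfl, rfl⟩

lemma exists_sq_subset {U : Set (ℝ × ℝ)} (hU : IsOpen U) {p : ℝ × ℝ} (hp : p ∈ U) :
    ∃ l, sq l p ⊆ U := by
  obtain ⟨ε, hε, hb⟩ := Metric.isOpen_iff.1 hU p hp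
  obtain ⟨l, hl⟩ := exists_pow_lt_of_lt_one hε (show (2⁻¹ : ℝ) < 1 by norm_num)
  refine ⟨l, fun q hq => hb ?_⟩
  rw [mem_sq] at hq
  have h2 : (0 : ℝ) < 2 ^ l := by positivity
  have h3 : (2 : ℝ) ^ l * (2⁻¹ : ℝ) ^ l = 1 := by rw [← mul_pow]; norm_num
  have key : ∀ a b : ℝ, ⌊(2 : ℝ) ^ l * a⌋ = ⌊(2 : ℝ) ^ l * b⌋ → |a - b| < (2⁻¹ : ℝ) ^ l := by
    intro a b hab
    have h := Int.abs_sub_lt_one_of_floor_eq_floor hab
    rw [← mul_sub, abs_mul, abs_of_pos h2] at h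
    rw [← mul_lt_mul_iff_right₀ h2, h3]
    exact h
  rw [Metric.mem_ball, Prod.dist_eq, max_lt_iff, Real.dist_eq, Real.dist_eq]
  exact ⟨(key _ _ hq.1).trans hl, (key _ _ hq.2).trans hl⟩

/-- `D` is a union of squares of level `l`. -/
def Inv (l : ℕ) (D : Set (ℝ × ℝ)) : Prop := ∀ p ∈ D, sq l p ⊆ D

lemma Inv.mono {l l' : ℕ} (h : l ≤ l') {D : Set (ℝ × ℝ)} (hD : Inv l D) : Inv l' D :=
  fun p hp => (sq_anti h p).trans (hD p hp)

lemma Inv.measurableSet {l : ℕ} {D : Set (ℝ × ℝ)} (hD : Inv l D) : MeasurableSet D := by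
  have : D = ⋃ i : {i : ℤ × ℤ // ∃ p ∈ D, ⌊(2 : ℝ) ^ l * p.1⌋ = i.1 ∧ ⌊(2 : ℝ) ^ l * p.2⌋ = i.2},
      cell l i.1.1 ×ˢ cell l i.1.2 := by
    ext q
    rw [mem_iUnion]
    constructor
    · intro hq
      exact ⟨⟨(_, _), q, hq, rfl, rfl⟩, rfl, rfl⟩
    · rintro ⟨⟨i, p, hp, h1, h2⟩, h3, h4⟩
      apply hD p hp
      rw [mem_sq, h1, h2]
      exact ⟨h3, h4⟩
  rw [this]
  exact MeasurableSet.iUnion fun i => (measurableSet_cell _ _).prod (measurableSet_cell _ _)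

/-- The maximal dyadic squares of level `l` inside `U`. -/
def Bl (l : ℕ) (U : Set (ℝ × ℝ)) : Set (ℝ × ℝ) := {p | sq l p ⊆ U ∧ ∀ l' < l, ¬ sq l' p ⊆ U}

lemma inv_Bl (l : ℕ) (U : Set (ℝ × ℝ)) : Inv l (Bl l U) := by
  rintro p ⟨hp1, hp2⟩ q hq
  refine ⟨by rw [sq_eq hq]; exact hp1, fun l' hl' => ?_⟩
  rw [sq_eq (sq_anti hl'.le p hq)]
  exact hp2 l' hl'

lemma Bl_subset (l : ℕ) (U : Set (ℝ × ℝ)) : Bl l U ⊆ U := fun p hp => hp.1 (mem_sq_self l p)

lemma exists_mem_Bl {U : Set (ℝ × ℝ)} (hU : IsOpen U) {p : ℝ × ℝ} (hp : p ∈ U) :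
    ∃ l, p ∈ Bl l U := by
  classical
  have h := exists_sq_subset hU hp
  exact ⟨Nat.find h, Nat.find_spec h, fun l' hl' => Nat.find_min h hl'⟩

lemma tsum_Bl_le (U : Set (ℝ × ℝ)) : ∑' l, volume (Bl l U) ≤ volume U := by
  rw [← measure_iUnion]
  · exact measure_mono (iUnion_subset fun l => Bl_subset l U)
  · intro l l' hne
    rw [Function.onFun, Set.disjoint_left]
    rintro p hp hp'
    rcases lt_or_gt_of_ne hne with h | h
    · exact hp'.2 l h hp.1
    · exact hp.2 l' h hp'.1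
  · exact fun l => (inv_Bl l U).measurableSet

/-- Every null set of the plane is contained in the upper limit of a sequence of finite-level
sets of small measure. -/
lemma exists_levels {N : Set (ℝ × ℝ)} (hN : volume N = 0) {ε : ℕ → ℝ≥0∞} (hε : ∀ n, 0 < ε n) :
    ∃ (f : ℕ → ℕ) (D : ℕ → Set (ℝ × ℝ)), StrictMono f ∧ (∀ n, Inv (f (n + 1)) (D n)) ∧
      (∀ n, volume (D n) ≤ ε n) ∧ ∀ p ∈ N, ∃ᶠ n in atTop, p ∈ D n := by
  have hU : ∀ k : ℕ, ∃ U ⊇ N, IsOpen U ∧ volume U < (4⁻¹ : ℝ≥0∞) ^ k := by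
    intro k
    apply Set.exists_isOpen_lt_of_lt
    rw [hN]
    exact ENNReal.pow_pos (by norm_num) k
  choose U hNU hUo hUv using hU
  let b : ℕ → ℝ≥0∞ := fun l => volume (⋃ k, Bl l (U k))
  have hb : ∑' l, b l ≠ ∞ := by
    have h1 : ∑' l, b l ≤ ∑' k, (4⁻¹ : ℝ≥0∞) ^ k := by
      calc ∑' l, b l ≤ ∑' l, ∑' k, volume (Bl l (U k)) :=
            ENNReal.tsum_le_tsum fun l => measure_iUnion_le _
        _ = ∑' k, ∑' l, volume (Bl l (U k)) := ENNReal.tsum_comm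
        _ ≤ ∑' k, (4⁻¹ : ℝ≥0∞) ^ k :=
            ENNReal.tsum_le_tsum fun k => (tsum_Bl_le (U k)).trans (hUv k).le
    refine ne_top_of_le_ne_top ?_ h1
    rw [ENNReal.tsum_geometric, ENNReal.inv_ne_top]
    refine (tsub_pos_of_lt ?_).ne'
    rw [ENNReal.inv_lt_one]
    norm_num
  have hev : ∀ n, ∀ᶠ i in atTop, ∑' k, b (k + i) ≤ ε n := by
    intro n
    have := ENNReal.tendsto_sum_nat_add b hb
    exact (this.eventually_lt_const (hε n)).mono fun i hi => hi.le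
  obtain ⟨f, hf, hfb⟩ := Filter.extraction_forall_of_eventually hev
  refine ⟨f, fun n => ⋃ l ∈ Finset.Ico (f n) (f (n + 1)), ⋃ k, Bl l (U k), hf, ?_, ?_, ?_⟩
  · intro n p hp
    simp only [mem_iUnion, Finset.mem_Ico] at hp
    obtain ⟨l, hl, k, hk⟩ := hp
    intro q hq
    simp only [mem_iUnion, Finset.mem_Ico]
    exact ⟨l, hl, k, (inv_Bl l (U k)).mono hl.2.le p hk hq⟩
  · intro n
    calc volume (⋃ l ∈ Finset.Ico (f n) (f (n + 1)), ⋃ k, Bl l (U k))
        ≤ ∑ l ∈ Finset.Ico (f n) (f (n + 1)), b l := measure_biUnion_finset_le _ _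
      _ = ∑ k ∈ Finset.range (f (n + 1) - f n), b (k + f n) := by
          rw [Finset.sum_Ico_eq_sum_range]
          exact Finset.sum_congr rfl fun k _ => by rw [add_comm]
      _ ≤ ∑' k, b (k + f n) := ENNReal.sum_le_tsum _
      _ ≤ ε n := hfb n
  · intro p hp
    rw [frequently_atTop]
    intro n0
    obtain ⟨l, hl⟩ := exists_mem_Bl (hUo (f n0)) (hNU (f n0) hp)
    have hl0 : f n0 < l := by
      have h1 : (4⁻¹ : ℝ≥0∞) ^ l < (4⁻¹ : ℝ≥0∞) ^ (f n0) := by
        rw [← volume_sq l p]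
        exact (measure_mono hl.1).trans_lt (hUv _)
      by_contra hle
      rw [not_lt] at hle
      exact absurd h1 (not_lt.2 (pow_le_pow_of_le_one (by simp) (by simp) hle))
    -- find the block containing `l`
    have hex : ∃ n, l < f (n + 1) := ⟨l, lt_of_lt_of_le (Nat.lt_succ_self l) (hf.id_le (l + 1))⟩
    classical
    set n := Nat.find hex with hn
    have h1 : l < f (n + 1) := Nat.find_spec hex
    have h2 : n0 ≤ n := by
      have : f n0 < f (n + 1) := hl0.trans h1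
      have := hf.lt_iff_lt.1 this
      omega
    have h3 : f n ≤ l := by
      rcases Nat.eq_zero_or_pos n with h0 | h0
      · have : n0 = 0 := by omega
        rw [h0, ← this]; exact hl0.le
      · have := Nat.find_min hex (m := n - 1) (by omega)
        rw [not_lt, Nat.sub_add_cancel h0] at this
        exact this
    refine ⟨n, h2, ?_⟩
    simp only [mem_iUnion, Finset.mem_Ico]
    exact ⟨l, ⟨h3, h1⟩, f n0, hl⟩

/-- Translating a union of squares of level `F` by the points of a square of level `F`. -/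
lemma translate_mem {F : ℕ} {D : Set (ℝ × ℝ)} (hD : Inv F D) {x y : ℝ} {p : ℝ × ℝ} (hp : p ∈ D) :
    ∃ i ∈ Finset.range 2, ∃ j ∈ Finset.range 2, ((x, y) + p) +
      (-(((⌊(2 : ℝ) ^ F * x⌋ : ℝ) + i) / 2 ^ F), -(((⌊(2 : ℝ) ^ F * y⌋ : ℝ) + j) / 2 ^ F)) ∈ D := by
  have h2 : (0 : ℝ) < 2 ^ F := by positivity
  have key : ∀ a b : ℝ, ∃ i ∈ Finset.range 2,
      ⌊(2 : ℝ) ^ F * ((a + b) + (-(((⌊(2 : ℝ) ^ F * a⌋ : ℝ) + (i : ℕ)) / 2 ^ F)))⌋ = ⌊(2 : ℝ) ^ F * b⌋ := by
    intro a b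
    have e1 : ∀ i : ℕ, (2 : ℝ) ^ F * ((a + b) + (-(((⌊(2 : ℝ) ^ F * a⌋ : ℝ) + (i : ℕ)) / 2 ^ F))) =
        (2 : ℝ) ^ F * a + 2 ^ F * b - ⌊(2 : ℝ) ^ F * a⌋ - i := by
      intro i; field_simp; ring
    have f1 := Int.floor_le ((2 : ℝ) ^ F * a)
    have f2 := Int.lt_floor_add_one ((2 : ℝ) ^ F * a)
    have f3 := Int.floor_le ((2 : ℝ) ^ F * b)
    have f4 := Int.lt_floor_add_one ((2 : ℝ) ^ F * b)
    rcases lt_or_ge ((2 : ℝ) ^ F * a + 2 ^ F * b) (⌊(2 : ℝ) ^ F * a⌋ + ⌊(2 : ℝ) ^ F * b⌋ + 1) with h | h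
    · refine ⟨0, by simp, ?_⟩
      rw [e1, Int.floor_eq_iff]
      push_cast
      constructor <;> linarith
    · refine ⟨1, by simp, ?_⟩
      rw [e1, Int.floor_eq_iff]
      push_cast
      constructor <;> linarith
  obtain ⟨i, hi, h1⟩ := key x p.1
  obtain ⟨j, hj, h3⟩ := key y p.2
  refine ⟨i, hi, j, hj, hD p hp ?_⟩
  rw [mem_sq]
  exact ⟨h1, h3⟩

/-- **The product of two null-additive sets of reals is null-additive in the plane.** -/
theorem result : ∀ X Y : Set ℝ, NullAdditive X → NullAdditive Y → NullAdditive (X ×ˢ Y) := by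
  intro X Y hX hY N hN
  let h : ℕ → ℝ≥0∞ := fun n => (((n + 1) * 2 ^ n : ℕ) : ℝ≥0∞)
  have hpos : ∀ n, h n ≠ 0 := by
    intro n
    simp only [h, ne_eq, Nat.cast_eq_zero]
    positivity
  have htop : ∀ n, h n ≠ ∞ := fun n => ENNReal.natCast_ne_top _
  have hc0 : ∀ n, (4 * (h n * h n)) ≠ 0 := fun n => mul_ne_zero (by norm_num) (mul_ne_zero (hpos n) (hpos n))
  have hct : ∀ n, (4 * (h n * h n)) ≠ ∞ := fun n =>
    ENNReal.mul_ne_top (by norm_num) (ENNReal.mul_ne_top (htop n) (htop n))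
  obtain ⟨f, D, hf, hD, hDv, hND⟩ := exists_levels hN (ε := fun n => (2⁻¹ : ℝ≥0∞) ^ n / (4 * (h n * h n)))
    (fun n => ENNReal.div_pos (pow_ne_zero _ (by norm_num)) (hct n))
  have hf' : Tendsto (fun n => f (n + 1)) atTop atTop :=
    hf.tendsto_atTop.comp (tendsto_add_atTop_nat 1)
  obtain ⟨G, hG, hGX⟩ := slalom hX hf'
  obtain ⟨G', hG', hGY⟩ := slalom hY hf'
  let E : ℕ → Set (ℝ × ℝ) := fun n => ⋃ a ∈ G n, ⋃ b ∈ G' n, ⋃ i ∈ Finset.range 2, ⋃ j ∈ Finset.range 2,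
    (fun r => r + (-(((a : ℝ) + i) / 2 ^ f (n + 1)), -(((b : ℝ) + j) / 2 ^ f (n + 1)))) ⁻¹' D n
  have hE : ∀ n, volume (E n) ≤ (2⁻¹ : ℝ≥0∞) ^ n := by
    intro n
    have h1 : volume (E n) ≤ ∑ a ∈ G n, ∑ b ∈ G' n, ∑ i ∈ Finset.range 2, ∑ j ∈ Finset.range 2,
        volume (D n) := by
      refine (measure_biUnion_finset_le _ _).trans (Finset.sum_le_sum fun a _ => ?_)
      refine (measure_biUnion_finset_le _ _).trans (Finset.sum_le_sum fun b _ => ?_)
      refine (measure_biUnion_finset_le _ _).trans (Finset.sum_le_sum fun i _ => ?_)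
      refine (measure_biUnion_finset_le _ _).trans (Finset.sum_le_sum fun j _ => ?_)
      rw [measure_preimage_add_right]
    refine h1.trans ?_
    simp only [Finset.sum_const, Finset.card_range, nsmul_eq_mul]
    calc ((G n).card : ℝ≥0∞) * ((G' n).card * (((2 : ℕ) : ℝ≥0∞) * (((2 : ℕ) : ℝ≥0∞) * volume (D n))))
        ≤ h n * (h n * (((2 : ℕ) : ℝ≥0∞) * (((2 : ℕ) : ℝ≥0∞) *
            ((2⁻¹ : ℝ≥0∞) ^ n / (4 * (h n * h n)))))) := by
          gcongr
          · exact Nat.cast_le.2 (hG n)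
          · exact Nat.cast_le.2 (hG' n)
          · exact hDv n
      _ = (4 * (h n * h n)) * ((2⁻¹ : ℝ≥0∞) ^ n / (4 * (h n * h n))) := by push_cast; ring
      _ = (2⁻¹ : ℝ≥0∞) ^ n := ENNReal.mul_div_cancel (hc0 n) (hct n)
  have hlim : volume (limsup E atTop) = 0 := by
    apply measure_limsup_atTop_eq_zero
    refine ne_top_of_le_ne_top ?_ (ENNReal.tsum_le_tsum hE)
    rw [ENNReal.tsum_geometric, ENNReal.inv_ne_top, ENNReal.one_sub_inv_two]
    norm_num
  refine measure_mono_null ?_ hlim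
  rintro z ⟨⟨x, y⟩, ⟨hx, hy⟩, p, hp, rfl⟩
  rw [mem_limsup_iff_frequently_mem]
  refine ((hND p hp).and_eventually ((hGX x hx).and (hGY y hy))).mono ?_
  rintro n ⟨hpD, hxG, hyG⟩
  obtain ⟨i, hi, j, hj, hij⟩ := translate_mem (hD n) (x := x) (y := y) hpD
  simp only [E, mem_iUnion]
  exact ⟨_, hxG, _, hyG, i, hi, j, hj, hij⟩

end Pool.Agent.Results.MP_52c2ea_lc.NullAdditiveProduct
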